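import Mathlib

/-!
# Countable partitions of `ℝ^d` into small sets with at most two closures meeting at every point

For every `d` the space `ℝ^d` has a countable partition into sets of diameter at most `1` (sup
metric) such that every point lies in the closure of at most two members.

The open `k`-dimensional faces of the cubes of the lattice `ℤ^d` are divided, for `k ≥ 2`, into
countably many shells which accumulate only at the boundary of the face; every open edge is divided
at its midpoint, its halves going to its endpoints.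
-/

namespace Pool.Agent.Results.MP_671186_gt.CountablePartition

open Set Filter Topology

variable {d : ℕ}

open Classical in
/-- the coordinates of `x` which are not integers -/
noncomputable def S (x : Fin d → ℝ) : Finset (Fin d) :=
  Finset.univ.filter fun i => (⌊x i⌋ : ℝ) ≠ x i

theorem mem_S {x : Fin d → ℝ} {i : Fin d} : i ∈ S x ↔ (⌊x i⌋ : ℝ) ≠ x i := by
  simp [S]

/-- distance to the nearest integer, as the minimum of the distances to the floor and to the next
integer -/
noncomputable def δ (a : ℤ) (t : ℝ) : ℝ := min (t - a) (a + 1 - t)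

theorem δ_cont (a : ℤ) : Continuous (δ a) := by
  unfold δ; fun_prop

/-- the gauge of a point with respect to a face -/
noncomputable def gauge (T : Finset (Fin d)) (a : Fin d → ℤ) (x : Fin d → ℝ) : ℝ :=
  if h : T.Nonempty then T.inf' h fun i => δ (a i) (x i) else 1

theorem gauge_cont (T : Finset (Fin d)) (a : Fin d → ℤ) : Continuous (gauge T a) := by
  unfold gauge
  by_cases h : T.Nonempty
  · simp only [h, dite_true]
    exact Continuous.finset_inf'_apply h fun i _ => (δ_cont (a i)).comp (continuous_apply i)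
  · simp only [h, dite_false]
    exact continuous_const

theorem gauge_le {T : Finset (Fin d)} {a : Fin d → ℤ} {x : Fin d → ℝ} {i : Fin d} (hi : i ∈ T) :
    gauge T a x ≤ δ (a i) (x i) := by
  have h : T.Nonempty := ⟨i, hi⟩
  unfold gauge
  simp only [h, dite_true]
  exact Finset.inf'_le _ hi

theorem gauge_pos (x : Fin d → ℝ) : 0 < gauge (S x) (fun i => ⌊x i⌋) x := by
  unfold gauge
  split_ifs with h
  · rw [Finset.lt_inf'_iff]
    intro i hi
    have h1 := mem_S.1 hi
    have h2 := Int.floor_le (x i)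
    have h3 := Int.lt_floor_add_one (x i)
    unfold δ
    exact lt_min (by linarith [lt_of_le_of_ne h2 h1]) (by linarith)
  · exact one_pos

open Classical in
/-- the label of a point -/
noncomputable def lab (x : Fin d → ℝ) : (Finset (Fin d) × (Fin d → ℤ)) × ℕ :=
  if 2 ≤ (S x).card then ((S x, fun i => ⌊x i⌋), ⌊1 / gauge (S x) (fun i => ⌊x i⌋) x⌋₊)
  else ((∅, fun i => round (x i)), 0)

/-- the members of the partition -/
def cell (l : (Finset (Fin d) × (Fin d → ℤ)) × ℕ) : Set (Fin d → ℝ) := {x | lab x = l}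

/-- the members with `T` of at least two elements -/
theorem mem_cell_big {T : Finset (Fin d)} {a : Fin d → ℤ} {n : ℕ} {x : Fin d → ℝ}
    (hx : x ∈ cell ((T, a), n)) (hT : T ≠ ∅) :
    2 ≤ T.card ∧ S x = T ∧ (∀ i, ⌊x i⌋ = a i) ∧ ⌊1 / gauge T a x⌋₊ = n ∧ 0 < gauge T a x := by
  have hx : lab x = ((T, a), n) := hx
  unfold lab at hx
  split_ifs at hx with h
  · have h1 : S x = T := congrArg (fun l => l.1.1) hx
    have h2 : (fun i => ⌊x i⌋) = a := congrArg (fun l => l.1.2) hx
    have h3 := congrArg (fun l => l.2) hx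
    have h4 := gauge_pos x
    simp only at h3
    rw [h1, h2] at h3 h4
    exact ⟨h1 ▸ h, h1, fun i => congrFun h2 i, h3, h4⟩
  · exact (hT (congrArg (fun l => l.1.1) hx).symm).elim

theorem mem_cell_small {a : Fin d → ℤ} {n : ℕ} {x : Fin d → ℝ}
    (hx : x ∈ cell ((∅, a), n)) :
    (S x).card ≤ 1 ∧ (∀ i, round (x i) = a i) ∧ n = 0 := by
  have hx : lab x = ((∅, a), n) := hx
  unfold lab at hx
  split_ifs at hx with h
  · have h1 : S x = ∅ := congrArg (fun l => l.1.1) hx
    rw [h1] at h
    simp at h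
  · have h2 : (fun i => round (x i)) = a := congrArg (fun l => l.1.2) hx
    exact ⟨by omega, fun i => congrFun h2 i, (congrArg (fun l => l.2) hx).symm⟩

theorem S_eq_of_Icc {T : Finset (Fin d)} {a : Fin d → ℤ} {p : Fin d → ℝ}
    (h1 : ∀ i ∉ T, p i = a i) (h2 : ∀ i ∈ T, (a i : ℝ) < p i ∧ p i < a i + 1) :
    S p = T ∧ ∀ i, ⌊p i⌋ = a i := by
  have hf : ∀ i, ⌊p i⌋ = a i := by
    intro i
    by_cases hi : i ∈ T
    · exact Int.floor_eq_iff.2 ⟨(h2 i hi).1.le, (h2 i hi).2⟩
    · rw [h1 i hi]; simp
  refine ⟨?_, hf⟩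
  ext i
  rw [mem_S, hf i]
  constructor
  · intro h
    by_contra hi
    exact h (h1 i hi).symm
  · intro hi
    exact (h2 i hi).1.ne

/-- closure of a big member -/
theorem closure_big {T : Finset (Fin d)} {a : Fin d → ℤ} {n : ℕ} {p : Fin d → ℝ}
    (hp : p ∈ closure (cell ((T, a), n))) (hT : T ≠ ∅) :
    2 ≤ T.card ∧ S p = T ∧ (∀ i, ⌊p i⌋ = a i) ∧
      (n : ℝ) ≤ 1 / gauge T a p ∧ 1 / gauge T a p ≤ n + 1 := by
  have hne : (cell ((T, a), n)).Nonempty := by
    by_contra h
    rw [not_nonempty_iff_eq_empty] at h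
    rw [h] at hp
    simp at hp
  obtain ⟨x0, hx0⟩ := hne
  have hT2 := (mem_cell_big hx0 hT).1
  have hn : 0 < (n : ℝ) + 1 := by positivity
  -- the closed set containing the member
  have hsub : cell ((T, a), n) ⊆ {x | (∀ i ∉ T, x i = a i) ∧ 1 / ((n : ℝ) + 1) ≤ gauge T a x ∧
      (n : ℝ) * gauge T a x ≤ 1} := by
    intro x hx
    obtain ⟨-, hS, hf, hg, hpos⟩ := mem_cell_big hx hT
    refine ⟨fun i hi => ?_, ?_, ?_⟩
    · rw [← hS, mem_S, not_not, hf i] at hi
      exact hi.symm
    · have h1 := Nat.lt_floor_add_one (1 / gauge T a x)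
      rw [hg] at h1
      rw [div_le_iff₀ hn]
      rw [div_lt_iff₀ hpos] at h1
      linarith
    · have h1 : (⌊1 / gauge T a x⌋₊ : ℝ) ≤ 1 / gauge T a x :=
        Nat.floor_le (div_nonneg zero_le_one hpos.le)
      rw [hg, le_div_iff₀ hpos] at h1
      exact h1
  have hclosed : IsClosed {x : Fin d → ℝ | (∀ i ∉ T, x i = a i) ∧
      1 / ((n : ℝ) + 1) ≤ gauge T a x ∧ (n : ℝ) * gauge T a x ≤ 1} := by
    have e : {x : Fin d → ℝ | (∀ i ∉ T, x i = a i) ∧
      1 / ((n : ℝ) + 1) ≤ gauge T a x ∧ (n : ℝ) * gauge T a x ≤ 1} =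
      {x : Fin d → ℝ | ∀ i ∉ T, x i = a i} ∩
        ({x : Fin d → ℝ | 1 / ((n : ℝ) + 1) ≤ gauge T a x} ∩
        {x : Fin d → ℝ | (n : ℝ) * gauge T a x ≤ 1}) := by
      ext x; rfl
    rw [e]
    refine IsClosed.inter ?_ (IsClosed.inter ?_ ?_)
    · have e2 : {x : Fin d → ℝ | ∀ i ∉ T, x i = a i} =
          ⋂ i, ⋂ (_ : i ∉ T), {x : Fin d → ℝ | x i = a i} := by
        ext x; simp
      rw [e2]
      exact isClosed_iInter fun i => isClosed_iInter fun _ =>
        isClosed_eq (continuous_apply i) continuous_const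
    · exact isClosed_le continuous_const (gauge_cont T a)
    · exact isClosed_le (continuous_const.mul (gauge_cont T a)) continuous_const
  obtain ⟨h1, h2, h3⟩ := closure_minimal hsub hclosed hp
  have hpos : 0 < gauge T a p := lt_of_lt_of_le (by positivity) h2
  have hin : ∀ i ∈ T, (a i : ℝ) < p i ∧ p i < a i + 1 := by
    intro i hi
    have := lt_of_lt_of_le hpos (gauge_le hi)
    unfold δ at this
    rw [lt_min_iff] at this
    exact ⟨by linarith [this.1], by linarith [this.2]⟩
  obtain ⟨hS, hf⟩ := S_eq_of_Icc h1 hin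
  refine ⟨hT2, hS, hf, ?_, ?_⟩
  · rw [le_div_iff₀ hpos]; exact h3
  · rw [div_le_iff₀ hpos]
    rw [div_le_iff₀ hn] at h2
    linarith

/-- closure of a small member -/
theorem closure_small {a : Fin d → ℤ} {n : ℕ} {p : Fin d → ℝ}
    (hp : p ∈ closure (cell ((∅, a), n))) :
    (S p).card ≤ 1 ∧ (∀ i, |p i - a i| ≤ 1 / 2) ∧ n = 0 := by
  have hne : (cell ((∅, a), n)).Nonempty := by
    by_contra h
    rw [not_nonempty_iff_eq_empty] at h
    rw [h] at hp
    simp at hp
  obtain ⟨x0, hx0⟩ := hne
  have hn := (mem_cell_small hx0).2.2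
  refine ⟨?_, ?_, hn⟩
  · by_contra hcard
    obtain ⟨i, hi, j, hj, hij⟩ := Finset.one_lt_card.1 (not_le.1 hcard)
    rw [mem_S] at hi hj
    -- a neighbourhood of `p` in which the coordinates `i` and `j` are not integers
    have hopen : ∀ k, (⌊p k⌋ : ℝ) ≠ p k → ∀ᶠ x in 𝓝 p, (⌊x k⌋ : ℝ) ≠ x k := by
      intro k hk
      have h1 : (⌊p k⌋ : ℝ) < p k := lt_of_le_of_ne (Int.floor_le _) hk
      have h2 := Int.lt_floor_add_one (p k)
      have c : Tendsto (fun x : Fin d → ℝ => x k) (𝓝 p) (𝓝 (p k)) :=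
        (continuous_apply k).tendsto p
      filter_upwards [c.eventually (Ioo_mem_nhds h1 h2)] with x hx
      have : ⌊x k⌋ = ⌊p k⌋ := Int.floor_eq_iff.2 ⟨hx.1.le, hx.2⟩
      rw [this]
      exact hx.1.ne
    obtain ⟨x, hx1, hx2, hx3⟩ := (mem_closure_iff_frequently.1 hp).and_eventually
      ((hopen i hi).and (hopen j hj)) |>.exists
    have := (mem_cell_small hx1).1
    have h2 : 1 < (S x).card := Finset.one_lt_card.2 ⟨i, mem_S.2 hx2, j, mem_S.2 hx3, hij⟩
    omega
  · intro i
    have hsub : cell ((∅, a), n) ⊆ {x | |x i - a i| ≤ 1 / 2} := by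
      intro x hx
      have := (mem_cell_small hx).2.1 i
      show |x i - a i| ≤ 1 / 2
      rw [← this]
      exact abs_sub_round _
    have hclosed : IsClosed {x : Fin d → ℝ | |x i - a i| ≤ 1 / 2} :=
      isClosed_le (by fun_prop) continuous_const
    exact closure_minimal hsub hclosed hp

theorem closure_two (p : Fin d → ℝ) : ∃ l₁ l₂, ∀ l, p ∈ closure (cell l) → l = l₁ ∨ l = l₂ := by
  by_cases h2 : 2 ≤ (S p).card
  · refine ⟨((S p, fun i => ⌊p i⌋), ⌊1 / gauge (S p) (fun i => ⌊p i⌋) p⌋₊),
      ((S p, fun i => ⌊p i⌋), ⌊1 / gauge (S p) (fun i => ⌊p i⌋) p⌋₊ - 1), ?_⟩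
    rintro ⟨⟨T, a⟩, n⟩ hl
    by_cases hT : T = ∅
    · subst hT
      have := (closure_small hl).1
      omega
    · obtain ⟨-, hS, hf, h3, h4⟩ := closure_big hl hT
      have ha : (fun i => ⌊p i⌋) = a := funext hf
      rw [hS, ha]
      have h5 : n ≤ ⌊1 / gauge T a p⌋₊ := Nat.le_floor h3
      have h6 : ⌊1 / gauge T a p⌋₊ ≤ n + 1 := by
        have := Nat.floor_le_floor h4
        rwa [show ((n : ℝ) + 1) = ((n + 1 : ℕ) : ℝ) by push_cast; ring, Nat.floor_natCast] at this
      rcases Nat.lt_or_ge n ⌊1 / gauge T a p⌋₊ with h | h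
      · right
        have : n = ⌊1 / gauge T a p⌋₊ - 1 := by omega
        rw [← this]
      · left
        have : n = ⌊1 / gauge T a p⌋₊ := le_antisymm h5 h
        rw [← this]
  · refine ⟨((∅, fun i => ⌊p i⌋), 0), ((∅, fun i => ⌈p i⌉), 0), ?_⟩
    rintro ⟨⟨T, a⟩, n⟩ hl
    by_cases hT : T = ∅
    · subst hT
      obtain ⟨h3, h4, rfl⟩ := closure_small hl
      have hint : ∀ i ∉ S p, a i = ⌊p i⌋ ∧ a i = ⌈p i⌉ := by
        intro i hi
        rw [mem_S, not_not] at hi
        have h5 := h4 i
        rw [← hi] at h5 ⊢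
        rw [Int.floor_intCast, Int.ceil_intCast]
        have h6 : |((⌊p i⌋ - a i : ℤ) : ℝ)| ≤ 1 / 2 := by push_cast; exact h5
        have h7 : |⌊p i⌋ - a i| < 1 := by
          have : (|⌊p i⌋ - a i| : ℝ) < 1 := by
            push_cast at h6
            linarith
          exact_mod_cast this
        have h8 : ⌊p i⌋ - a i = 0 := Int.abs_lt_one_iff.1 h7
        constructor <;> omega
      by_cases hS : (S p).Nonempty
      · obtain ⟨j, hj⟩ := hS
        have hj2 : ∀ i, i ≠ j → i ∉ S p := by
          intro i hij hi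
          exact hij (Finset.card_le_one.1 h3 i hi j hj)
        have h5 := h4 j
        rw [abs_le] at h5
        have h6 := Int.floor_le (p j)
        have h7 := Int.lt_floor_add_one (p j)
        have h8 := mem_S.1 hj
        have h9 : (⌊p j⌋ : ℝ) < p j := lt_of_le_of_ne h6 h8
        have h10 : ⌈p j⌉ = ⌊p j⌋ + 1 := by
          rw [Int.ceil_eq_iff]
          push_cast
          constructor <;> linarith
        have h11 : (⌊p j⌋ : ℝ) - 1 < a j := by linarith [h5.2]
        have h12 : (a j : ℝ) < ⌊p j⌋ + 2 := by linarith [h5.1]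
        have h13 : ⌊p j⌋ - 1 < a j := by exact_mod_cast h11
        have h14 : a j < ⌊p j⌋ + 2 := by exact_mod_cast h12
        rcases (show a j = ⌊p j⌋ ∨ a j = ⌊p j⌋ + 1 by omega) with h | h
        · left
          have : a = fun i => ⌊p i⌋ := by
            funext i
            by_cases hij : i = j
            · rw [hij]; exact h
            · exact (hint i (hj2 i hij)).1
          rw [this]
        · right
          have : a = fun i => ⌈p i⌉ := by
            funext i
            by_cases hij : i = j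
            · rw [hij, h10]; exact h
            · exact (hint i (hj2 i hij)).2
          rw [this]
      · left
        have : a = fun i => ⌊p i⌋ := by
          funext i
          exact (hint i (fun hi => hS ⟨i, hi⟩)).1
        rw [this]
    · obtain ⟨h3, hS, -⟩ := closure_big hl hT
      rw [hS] at h2
      omega

theorem dist_lt {l : (Finset (Fin d) × (Fin d → ℤ)) × ℕ} {x y : Fin d → ℝ}
    (hx : x ∈ cell l) (hy : y ∈ cell l) : dist x y < 2 := by
  rw [dist_pi_lt_iff (by norm_num)]
  intro i
  rw [Real.dist_eq]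
  obtain ⟨⟨T, a⟩, n⟩ := l
  by_cases hT : T = ∅
  · subst hT
    have h1 := abs_sub_round (x i)
    have h2 := abs_sub_round (y i)
    rw [(mem_cell_small hx).2.1 i] at h1
    rw [(mem_cell_small hy).2.1 i] at h2
    rw [abs_le] at h1 h2
    rw [abs_lt]
    constructor <;> linarith [h1.1, h1.2, h2.1, h2.2]
  · have h1 := (mem_cell_big hx hT).2.2.1 i
    have h2 := (mem_cell_big hy hT).2.2.1 i
    have h3 := Int.floor_le (x i)
    have h4 := Int.lt_floor_add_one (x i)
    have h5 := Int.floor_le (y i)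
    have h6 := Int.lt_floor_add_one (y i)
    rw [h1] at h3 h4
    rw [h2] at h5 h6
    rw [abs_lt]
    constructor <;> linarith

/-- For every `d` there are a countable partition of `ℝ^d` and `D > 0` such that all members have
strict pairwise bound `D` (in the sup metric), (the cube `[0,D]^d` meets only countably many
members,) and every point lies in the closure of at most two members. -/
theorem result : ∀ d : ℕ, ∃ (P : Set (Set (Fin d → ℝ))) (D : ℝ) (α : Fin d → ℝ),
    Setoid.IsPartition P ∧ 0 < D ∧ (∀ X ∈ P, ∀ x ∈ X, ∀ y ∈ X, dist x y < D) ∧ P.Countable ∧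
    {X ∈ P | (X ∩ Icc α (fun i => α i + D)).Nonempty}.Countable ∧
    ∀ p : Fin d → ℝ, {X ∈ P | p ∈ closure X}.encard ≤ 2 := by
  intro d
  have hc : (range fun x : Fin d → ℝ => cell (lab x)).Countable := by
    have : (range fun x : Fin d → ℝ => cell (lab x)) ⊆ range (cell (d := d)) := by
      rintro _ ⟨x, rfl⟩
      exact ⟨lab x, rfl⟩
    exact (countable_range _).mono this
  refine ⟨range fun x => cell (lab x), 2, 0, ⟨?_, ?_⟩, by norm_num, ?_, hc,
    hc.mono (fun X hX => hX.1), ?_⟩
  · rintro ⟨x, hx⟩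
    have : x ∈ cell (lab x) := rfl
    rw [show cell (lab x) = ∅ from hx] at this
    exact this
  · intro x
    refine ⟨cell (lab x), ⟨⟨x, rfl⟩, rfl⟩, ?_⟩
    rintro _ ⟨⟨y, rfl⟩, hy⟩
    have : lab x = lab y := hy
    show cell (lab y) = cell (lab x)
    rw [this]
  · rintro _ ⟨z, rfl⟩ x hx y hy
    exact dist_lt hx hy
  · intro p
    obtain ⟨l₁, l₂, h⟩ := closure_two p
    have : {X ∈ range fun x => cell (lab x) | p ∈ closure X} ⊆ {cell l₁, cell l₂} := by
      rintro _ ⟨⟨x, rfl⟩, hx⟩
      rcases h _ hx with h | h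
      · left; show cell (lab x) = cell l₁; rw [h]
      · right; show cell (lab x) = cell l₂; rw [h]
    refine (encard_le_encard this).trans ((encard_insert_le _ _).trans ?_)
    rw [encard_singleton]
    norm_num

end Pool.Agent.Results.MP_671186_gt.CountablePartition
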